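import Pool.Agent.Q51.SZ.Stm2
import Pool.Agent.Q124.SZ.VLB
import Pool.Agent.Y157.PS.All
import Pool.Agent.W240.S3.ZLoc

/-! Job IDX of project SZ (helper51): the ramification index divides the index of inertia groups. -/

set_option autoImplicit false

namespace Pool.Agent.Q198.SZ

open Polynomial NumberField IsDedekindDomain Finset
open Pool.Agent.Q51.SZ
open Pool.Agent.Q124.SZ (Vl isU_int)
open Pool.Agent.Y157.PS (Dec Ine IsU nonunits_iff IsU.mul IsU.inv IsU.div isU_one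
  isU_of_not_nonunit non_add non_mul IsU.not_nonunit)

variable {A : Type} [Field A]

theorem pow_nonunit {V : ValuationSubring A} {a : A} (h : a ∈ V.nonunits) (n : ℕ) : a ^ (n + 1) ∈ V.nonunits := by
  induction n with
  | zero => simpa using h
  | succ n ih =>
    rw [pow_succ]
    exact non_mul (ValuationSubring.nonunits_subset ih) h

theorem zpow_unit {V : ValuationSubring A} {a : A} (h : a ∈ V.nonunits) {k : ℤ} (hk : IsU V (a ^ k)) : k = 0 := by
  obtain ⟨m, rfl | rfl⟩ := k.eq_nat_or_neg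
  · rcases m with _ | m
    · rfl
    · exfalso
      rw [zpow_natCast] at hk
      exact hk.not_nonunit (pow_nonunit h m)
  · rcases m with _ | m
    · rfl
    · exfalso
      rw [zpow_neg, zpow_natCast] at hk
      have h1 := hk.inv
      rw [inv_inv] at h1
      exact h1.not_nonunit (pow_nonunit h m)

theorem Vl_unique {V : ValuationSubring A} {l : ℕ} (hl : (l : A) ≠ 0) (hV : (l : A) ∈ V.nonunits) {a : A} {d e : ℤ}
    (h : Vl V l a d) (h' : Vl V l a e) : d = e := by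
  have ha : a ≠ 0 := by
    rintro rfl
    have h1 := h.1
    simp at h1
  have h1 := h.div hl h'
  rw [div_self ha] at h1
  unfold Vl at h1
  rw [one_div] at h1
  have h2 := h1.inv
  rw [inv_inv] at h2
  have h3 := zpow_unit hV h2
  omega

/-- Elements fixed by the inertia group have an integral value. -/
theorem ine_val [Algebra ℚ A] [IsAlgClosure ℚ A] {l : ℕ} (hl : l.Prime) (V : ValuationSubring A) (hV : (l : A) ∈ V.nonunits)
    {c : A} (hc : c ≠ 0) (hfix : ∀ σ : A ≃ₐ[ℚ] A, Ine V σ → σ c = c) : ∃ j : ℤ, Vl V l c j := by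
  have : CharZero A := algebraRat.charZero A
  obtain ⟨A0, _, _, _, _, hfin, hfrac, hirr, hmem, happ⟩ := Pool.Agent.W240.S3.zloc l hl
  let _ : Algebra A0 A := ((algebraMap ℚ A).comp (algebraMap A0 ℚ)).toAlgebra
  have hst : IsScalarTower A0 ℚ A := IsScalarTower.of_algebraMap_eq' rfl
  have hinj : Function.Injective (algebraMap A0 ℚ) := IsFractionRing.injective A0 ℚ
  have hV0 : ∀ a : A0, algebraMap A0 A a ∈ V := by
    intro a
    obtain ⟨q, hq⟩ : ∃ q : ℚ, q = algebraMap A0 ℚ a := ⟨_, rfl⟩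
    have hpc : ¬ (l : ℤ) ∣ (q.den : ℤ) := by
      intro hpc
      have h1 : ((q.den : ℤ) : A0) * a = ((q.num : ℤ) : A0) := by
        apply hinj
        rw [map_mul, map_intCast, map_intCast, ← hq]
        push_cast
        rw [mul_comm]
        exact Rat.mul_den_eq_num q
      have h2 : ((q.num : ℤ) : A0) ∈ IsLocalRing.maximalIdeal A0 := by
        rw [← h1]
        exact Ideal.mul_mem_right _ _ ((hmem _).2 hpc)
      have h3 : (l : ℤ) ∣ q.num := (hmem _).1 h2
      have h4 : l ∣ q.num.natAbs := Int.natCast_dvd.1 h3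
      have h5 : l ∣ q.den := by exact_mod_cast hpc
      have h6 : l ∣ Nat.gcd q.num.natAbs q.den := Nat.dvd_gcd h4 h5
      rw [q.reduced] at h6
      exact hl.one_lt.ne' (Nat.dvd_one.1 h6)
    have h1 : IsU V (((q.den : ℤ) : A)) := isU_int hl hV hpc
    have h2 : algebraMap A0 A a = ((q.num : ℤ) : A) * (((q.den : ℤ) : A))⁻¹ := by
      have h3 : algebraMap A0 A a = algebraMap ℚ A q := by
        rw [hq]
        rfl
      rw [h3]
      conv_lhs => rw [← Rat.num_div_den q]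
      rw [map_div₀, map_intCast, map_natCast, div_eq_mul_inv]
      push_cast
      rfl
    rw [h2]
    exact V.mul_mem _ _ (intCast_mem V.toSubring _) h1.2.2
  have hcast : algebraMap A0 A (l : A0) = (l : A) := map_natCast _ _
  have hV1 : ∀ a ∈ IsLocalRing.maximalIdeal A0, algebraMap A0 A a ∈ V.nonunits := by
    intro a ha
    rw [hirr.maximalIdeal_eq, Ideal.mem_span_singleton] at ha
    obtain ⟨b, rfl⟩ := ha
    rw [map_mul, hcast, mul_comm]
    exact non_mul (hV0 b) hV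
  obtain ⟨j, hj⟩ := Pool.Agent.Y157.PS.a_ine A0 ℚ A V (l : A0) hV0 hV1 hirr c hc hfix
  rw [hcast] at hj
  exact ⟨j, hj⟩

theorem isU_aut [Algebra ℚ A] {V : ValuationSubring A} {σ : A ≃ₐ[ℚ] A} (h : Dec V σ) {z : A} (hz : IsU V z) : IsU V (σ z) := by
  refine ⟨fun h0 => hz.1 ((map_eq_zero σ).1 h0), (h z).2 hz.2.1, ?_⟩
  rw [← map_inv₀]
  exact (h _).2 hz.2.2

theorem idx : S_IDX := by
  classical
  intro A _ _ _ q l hl V hV N _ ϖ e hϖ he hqe hU
  have : CharZero A := algebraRat.charZero A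
  have hl0 : (l : A) ≠ 0 := by exact_mod_cast hl.ne_zero
  obtain ⟨K, hK⟩ : ∃ K : Subgroup (InG V), K = N.fixingSubgroup.subgroupOf (InG V) := ⟨_, rfl⟩
  have hrel : N.fixingSubgroup.relIndex (InG V) = K.index := by
    rw [hK]
    rfl
  rw [hrel]
  by_cases hidx : K.index = 0
  · rw [hidx]
    exact dvd_zero q
  have : K.FiniteIndex := ⟨hidx⟩
  let _ : Fintype (InG V ⧸ K) := Fintype.ofFinite _
  have hϖ0 : ϖ ≠ 0 := by
    rintro rfl
    have h1 := hU.1
    rw [zero_pow he] at h1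
    simp at h1
  -- the function on the cosets
  have hlift : ∀ a b : InG V, QuotientGroup.leftRel K a b → a.1 ϖ = b.1 ϖ := by
    intro a b hab
    rw [QuotientGroup.leftRel_apply, hK, Subgroup.mem_subgroupOf] at hab
    have h1 : (a⁻¹ * b : InG V).1 ϖ = ϖ := by
      have h2 := (IntermediateField.mem_fixingSubgroup_iff N _).1 hab
      exact h2 ϖ hϖ
    have h3 : (a⁻¹ * b : InG V).1 ϖ = a.1⁻¹ (b.1 ϖ) := rfl
    rw [h3] at h1
    have h4 : a.1 (a.1⁻¹ (b.1 ϖ)) = b.1 ϖ := by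
      change (a.1 * a.1⁻¹) (b.1 ϖ) = b.1 ϖ
      rw [mul_inv_cancel]
      rfl
    rw [← h4, h1]
  obtain ⟨F, hF⟩ : ∃ F : InG V ⧸ K → A, ∀ a : InG V, F (QuotientGroup.mk a) = a.1 ϖ :=
    ⟨Quotient.lift (fun a : InG V => a.1 ϖ) hlift, fun a => rfl⟩
  have hFg : ∀ (g : InG V) (x : InG V ⧸ K), F (g • x) = g.1 (F x) := by
    intro g x
    obtain ⟨a, rfl⟩ := QuotientGroup.mk_surjective x
    have h1 : g • (QuotientGroup.mk a : InG V ⧸ K) = QuotientGroup.mk (g * a) := rfl
    rw [h1, hF, hF]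
    rfl
  obtain ⟨Nm, hNm⟩ : ∃ Nm : A, Nm = ∏ x, F x := ⟨_, rfl⟩
  have hNm0 : Nm ≠ 0 := by
    rw [hNm, Finset.prod_ne_zero_iff]
    intro x _
    obtain ⟨a, rfl⟩ := QuotientGroup.mk_surjective x
    rw [hF]
    exact fun h => hϖ0 ((map_eq_zero a.1).1 h)
  have hfix : ∀ σ : A ≃ₐ[ℚ] A, Ine V σ → σ Nm = Nm := by
    intro σ hσ
    obtain ⟨g, hg⟩ : ∃ g : InG V, g.1 = σ := ⟨⟨σ, hσ⟩, rfl⟩
    rw [hNm, map_prod, ← hg]
    calc ∏ x, g.1 (F x) = ∏ x, F (g • x) := Finset.prod_congr rfl (fun x _ => (hFg g x).symm)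
      _ = ∏ x, F x := Equiv.prod_comp (MulAction.toPerm g) F
  obtain ⟨j, hj⟩ := ine_val hl V hV hNm0 hfix
  have hFe : ∀ x ∈ (univ : Finset (InG V ⧸ K)), Vl V l (F x ^ e) 1 := by
    intro x _
    obtain ⟨a, rfl⟩ := QuotientGroup.mk_surjective x
    rw [hF]
    have h1 := isU_aut (show Dec V a.1 from (show Ine V a.1 from a.2).1) hU
    unfold Vl
    rw [map_div₀, map_pow, map_natCast] at h1
    rw [zpow_one]
    exact h1
  have h1 := Vl.prod hl0 univ (fun x => F x ^ e) (fun _ => (1 : ℤ)) hFe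
  rw [Finset.prod_pow, ← hNm, Finset.sum_const, Finset.card_univ, nsmul_eq_mul, mul_one] at h1
  have h2 := hj.npow hl0 e
  have h3 := Vl_unique hl0 hV h1 h2
  have h4 : K.index = Fintype.card (InG V ⧸ K) := by
    rw [Subgroup.index_eq_card, Nat.card_eq_fintype_card]
  rw [h4]
  have h5 : (q : ℤ) ∣ ((Fintype.card (InG V ⧸ K) : ℕ) : ℤ) := by
    rw [h3]
    exact Dvd.dvd.mul_right (by exact_mod_cast hqe) _
  exact_mod_cast h5

end Pool.Agent.Q198.SZ
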